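import Pool.Agent.Zk66.Nag

/-!
# The Tauberian generalized Nagao conjecture for almost all members of linear systems of fibrations over number fields, along
# sequences of parameters of any growth

Let `K` be a number field and `F₀`, `h_1, ..., h_D` polynomials in `t = (t_1, ..., t_m)`, `m ≥ 1`, and `x` over its ring of
integers, `F₀` monic of odd degree in `x` and the `h_i` of smaller degree in `x`. We study the fibrations over the affine space
with the coordinates `t` whose fibres are the curves `y² = F_c(t, x)`, `F_c = F₀ + ∑ c_i h_i`; every fibre has one point at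
infinity, and the trace of the Frobenius on `H¹` of the fibre over a point `t` over the residue field with `q_v` elements is `q_v`
minus the number of its affine points (if it is smooth). The average of these traces over all `t` is the number `𝔄_v` of the
problem (there is no fixed part for a general member). If the base locus of the `h_i` consists of `r` sections over which `F₀` is
a square, then the members have `r` explicit points over `K(t)`, and according to the problem the sums of `𝔄_v log(q_v)` over the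
prime ideals with `q_v ≤ T` are `- r T + o(T)` if these points generate a subgroup of finite index.

The coefficients are `c_i = ∑ z_(i,j)(s) ω_j` with a basis `ω_j` of the ring of integers, and there is one parameter `s`, an integer
or a prime. Here `z_(i,j)(s)` are, for example, the integral parts of

* `ξ_(i,j) g_(i,j)(s) + c_(i,j)(s)` for any real sequences `g` with `g(s + 1) - g(s) ≥ s ^ (ρ - 1)` (for instance `s`, `s ^ 2`, `√s`,
  `2 ^ s`, `s !`, the primes) and any real sequences `c`, for almost all real vectors `ξ`, or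
* `ξ_(i,j) ^ g_(i,j)(s) + c_(i,j)(s)` with strictly increasing integers `g(s)`, for almost all vectors `ξ` with `ξ_(i,j) > 1`,

and so for almost all members of all families of twice continuously differentiable functions whose derivatives are separated
(`Spread`). The sequences can grow arbitrarily fast. We show that for all but `N / y ^ A` of the `s` in `(N, 2 N]`, and for all but
the proportion `1 / y ^ A` of the primes `s`, the sums `∑ w(v) (𝔄_v + r) log(q_v)` over the prime ideals (of all degrees) with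
`q_v ≤ T` are at most `T ^ (1 / 2 + δ)`, and the Dirichlet polynomials `∑ w(v) (𝔄_v + r) log(q_v) q_v ^ (-z)` over the prime
ideals with `T₁ < q_v ≤ T₂` are at most `T₁ ^ (1 / 2 + δ - Re z)` in the half plane `Re z ≥ 1 / 2 + δ` for `|Im z| ≤ T₁ ^ B`, with
arbitrary weights (for example characters) from a set of at most `y ^ B` weights, without an arbitrary set of bad primes, for all
`T`, `T₁`, `T₂` between `y` and `N ^ κ`: as if the series and all its twists differed from that of `- r` by a function which is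
holomorphic and of subpolynomial growth for `Re z > 1 / 2`. The exponent `1 / 2` is the one of the Riemann hypothesis.

The starting results on this problem treat mean values over all the members of bounded height (`HyperellipticSystems`) and special
families; on a sequence of members which grows, say, exponentially they say nothing. For fibrations in surfaces and the numbers
`𝔅_v` on `H²` (the problem MP_6090f9_nt) the starting file `Pool.Agent.Results.MP_6090f9_nt.ThinSequences` treats sequences of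
coefficients which are integral parts of generalised polynomials, with the same ranges and exceptional sets.

Method: for almost all `ξ` the vectors `z(s)` are uniformly distributed modulo all moduli up to a power of `N` with a power
saving, over the integers and over the primes (`Pool.Agent.N54.ME`: second moments over the parameters); high moments of sums of
local functions which are as large as `√q_v` (the bound of Weil) but have bounded second moments (`Pool.Agent.N647.NG`).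
-/

set_option autoImplicit false

namespace Pool.Agent.Results.MP_1a0ddd_nt.MetricSequences

open Finset Polynomial NumberField IsDedekindDomain Filter MeasureTheory

section
variable {K : Type} [Field K] [NumberField K] {m D g : ℕ}

/-- The coefficients `c_i = ∑ n_(i,j) ω_j`. -/
def coeff (ω : Fin g → 𝓞 K) (n : Fin (D * g) → ℕ) (i : Fin D) : 𝓞 K := ∑ j, (n (finProdFinEquiv (i, j)) : 𝓞 K) * ω j

/-- The polynomial `F_c = F₀ + ∑ c_i h_i`, in the variable `x` over the ring of the polynomials in `t_1, ..., t_m`. -/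
noncomputable def member (F₀ : (MvPolynomial (Fin m) (𝓞 K))[X]) (h : Fin D → (MvPolynomial (Fin m) (𝓞 K))[X])
    (c : Fin D → 𝓞 K) : (MvPolynomial (Fin m) (𝓞 K))[X] := F₀ + ∑ i, C (MvPolynomial.C (c i)) * h i

/-- The residue field of the prime ideal `v`. -/
abbrev Residue (v : HeightOneSpectrum (𝓞 K)) : Type := 𝓞 K ⧸ v.asIdeal

/-- The absolute norm `q_v`. -/
noncomputable def norm (v : HeightOneSpectrum (𝓞 K)) : ℝ := Ideal.absNorm v.asIdeal

/-- The polynomial `F(t, x)` in `x` over the residue field of `v`, for a point `t` over the residue field: the fibre over the point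
`t` is `y² = F(t, x)`. -/
noncomputable def fibre (v : HeightOneSpectrum (𝓞 K)) (F : (MvPolynomial (Fin m) (𝓞 K))[X]) (t : Fin m → Residue v) : (Residue v)[X] :=
  F.map (MvPolynomial.eval₂Hom (Ideal.Quotient.mk v.asIdeal) t)

/-- The value `F(t, x)` at the point `P = (t, x)` over the residue field of `v`. -/
noncomputable def val (v : HeightOneSpectrum (𝓞 K)) (F : (MvPolynomial (Fin m) (𝓞 K))[X])
    (P : (Fin m → Residue v) × Residue v) : Residue v := (fibre v F P.1).eval P.2

/-- The average `𝔄_v` of the traces `q_v - #{(x, y) : y² = F(t, x)}` of the fibres over all points `t` of the affine space over the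
residue field: `q_v` minus the number of all the points `(t, x, y)` with `y² = F(t, x)` divided by `q_v ^ m`. -/
noncomputable def average (F : (MvPolynomial (Fin m) (𝓞 K))[X]) (v : HeightOneSpectrum (𝓞 K)) : ℝ :=
  norm v - (Nat.card {P : (Fin m → Residue v) × Residue v × Residue v // P.2.2 ^ 2 = (fibre v F P.1).eval P.2.1} : ℝ) / norm v ^ m

/-- The sum `∑ w(v) (𝔄_v + r) log(q_v)` over the prime ideals `v ∉ R` with `q_v ≤ T`. -/
noncomputable def partialSum (F : (MvPolynomial (Fin m) (𝓞 K))[X]) (r : ℝ) (w : HeightOneSpectrum (𝓞 K) → ℝ) (T : ℕ)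
    (R : Set (HeightOneSpectrum (𝓞 K))) : ℝ :=
  ∑ᶠ v ∈ {v : HeightOneSpectrum (𝓞 K) | Ideal.absNorm v.asIdeal ≤ T ∧ v ∉ R}, w v * ((average F v + r) * Real.log (norm v))

/-- The Dirichlet polynomial `∑ w(v) (𝔄_v + r) log(q_v) q_v ^ (-z)` over the prime ideals `v ∉ R` with `T₁ < q_v ≤ T₂`. -/
noncomputable def dirichlet (F : (MvPolynomial (Fin m) (𝓞 K))[X]) (r : ℝ) (w : HeightOneSpectrum (𝓞 K) → ℝ) (T₁ T₂ : ℕ)
    (R : Set (HeightOneSpectrum (𝓞 K))) (z : ℂ) : ℂ :=
  ∑ᶠ v ∈ {v : HeightOneSpectrum (𝓞 K) | T₁ < Ideal.absNorm v.asIdeal ∧ Ideal.absNorm v.asIdeal ≤ T₂ ∧ v ∉ R},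
    ((w v * ((average F v + r) * Real.log (norm v)) : ℝ) : ℂ) * (norm v : ℂ) ^ (-z)

/-- The values `h_i(P)` at a point `P` over the residue field outside the base locus are not a multiple of the values `h_i(Q)` at
another point `Q`. -/
def Separated (v : HeightOneSpectrum (𝓞 K)) (h : Fin D → (MvPolynomial (Fin m) (𝓞 K))[X]) : Prop :=
  ∀ P Q : (Fin m → Residue v) × Residue v, P ≠ Q → (∃ i, val v (h i) P ≠ 0) →
    ¬ ∃ l : Residue v, ∀ i, val v (h i) P = l * val v (h i) Q

/-- The number of the points `P` over the residue field in the base locus (the common zeros of the `h_i`). -/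
noncomputable def basePoints (v : HeightOneSpectrum (𝓞 K)) (h : Fin D → (MvPolynomial (Fin m) (𝓞 K))[X]) : ℝ :=
  Nat.card {P : (Fin m → Residue v) × Residue v // ∀ i, val v (h i) P = 0}

/-- The number of the points `(P, y)` over the residue field with `P` in the base locus and `y² = F₀(P)`. -/
noncomputable def coverPoints (v : HeightOneSpectrum (𝓞 K)) (F₀ : (MvPolynomial (Fin m) (𝓞 K))[X])
    (h : Fin D → (MvPolynomial (Fin m) (𝓞 K))[X]) : ℝ :=
  Nat.card {P : ((Fin m → Residue v) × Residue v) × Residue v // (∀ i, val v (h i) P.1 = 0) ∧ P.2 ^ 2 = val v F₀ P.1}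

/-- For all weights `w ∈ W` and all sets `R` of prime ideals which divide `Z(c)`: the sum of `w(v) (𝔄_v + r) log(q_v)` over the
prime ideals `v ∉ R` with `q_v ≤ T` is at most `T ^ (1 / 2 + δ)` in absolute value for `y ≤ T ≤ N ^ κ`, and the Dirichlet
polynomial over the `v ∉ R` with `T₁ < q_v ≤ T₂` is at most `T₁ ^ (1 / 2 + δ - Re z)` for `y ≤ T₁ ≤ T₂ ≤ N ^ κ`,
`Re z ≥ 1 / 2 + δ` and `|Im z| ≤ T₁ ^ B`. -/
def Good (ω : Fin g → 𝓞 K) (F₀ : (MvPolynomial (Fin m) (𝓞 K))[X]) (h : Fin D → (MvPolynomial (Fin m) (𝓞 K))[X])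
    (r : ℝ) (Z : MvPolynomial (Fin D) (𝓞 K)) (δ κ : ℝ) (B y N : ℕ) (W : Set (HeightOneSpectrum (𝓞 K) → ℝ)) (n : Fin (D * g) → ℕ) :
    Prop :=
  ∀ w ∈ W, ∀ R : Set (HeightOneSpectrum (𝓞 K)), (∀ v ∈ R, MvPolynomial.eval (coeff ω n) Z ∈ v.asIdeal) →
    (∀ T : ℕ, y ≤ T → (T : ℝ) ≤ (N : ℝ) ^ κ → |partialSum (member F₀ h (coeff ω n)) r w T R| ≤ (T : ℝ) ^ (1 / 2 + δ)) ∧
    (∀ T₁ T₂ : ℕ, y ≤ T₁ → T₁ ≤ T₂ → (T₂ : ℝ) ≤ (N : ℝ) ^ κ → ∀ z : ℂ, 1 / 2 + δ ≤ z.re → |z.im| ≤ (T₁ : ℝ) ^ B →
      ‖dirichlet (member F₀ h (coeff ω n)) r w T₁ T₂ R z‖ ≤ (T₁ : ℝ) ^ (1 / 2 + δ - z.re))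

/-- The derivatives of the consecutive functions `F s` are separated on `[u, v]` and their second derivatives increase. -/
def Spread (ρ u v : ℝ) (F : ℕ → ℝ → ℝ) : Prop :=
  (∀ s, ContDiff ℝ 2 (F s)) ∧ ∃ s₀ : ℕ, ∀ s, s₀ ≤ s → ∀ x ∈ Set.Icc u v,
    (s : ℝ) ^ (ρ - 1) ≤ deriv (F (s + 1)) x - deriv (F s) x ∧
      deriv (deriv (F s)) x ≤ deriv (deriv (F (s + 1))) x

open Classical in
/-- If the integers `z s j` are nonnegative for all large `s`, then there are `κ > 0` and `y₀` such that for all `y ≥ y₀`, all `N` and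
all sets `W` of at most `y ^ B` weights with values in `[-1, 1]`: the member with the numbers `n_j = z s j` is `Good` for all integers
`s` in `(N, 2 N]` with at most `N / y ^ A` exceptions, and for all primes `s` in `(N, 2 N]` with the exception of at most a
proportion `1 / y ^ A` of them. -/
def AlmostAll (ω : Fin g → 𝓞 K) (F₀ : (MvPolynomial (Fin m) (𝓞 K))[X]) (h : Fin D → (MvPolynomial (Fin m) (𝓞 K))[X])
    (r : ℝ) (Z : MvPolynomial (Fin D) (𝓞 K)) (δ : ℝ) (A B : ℕ) (z : ℕ → Fin (D * g) → ℤ) : Prop :=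
  (∀ᶠ s : ℕ in atTop, ∀ j, 0 ≤ z s j) →
    ∃ κ : ℝ, 0 < κ ∧ ∃ y₀ : ℕ, ∀ y N : ℕ, y₀ ≤ y → ∀ W : Set (HeightOneSpectrum (𝓞 K) → ℝ),
      W.Finite → W.ncard ≤ y ^ B → (∀ w ∈ W, ∀ v, |w v| ≤ 1) →
      (((Ioc N (2 * N)).filter fun s => ¬ Good ω F₀ h r Z δ κ B y N W (fun j => (z s j).toNat)).card : ℝ) ≤ 1 / (y : ℝ) ^ A * N ∧
      ((((Ioc N (2 * N)).filter Nat.Prime).filter fun s => ¬ Good ω F₀ h r Z δ κ B y N W (fun j => (z s j).toNat)).card : ℝ) ≤
        1 / (y : ℝ) ^ A * ((Ioc N (2 * N)).filter Nat.Prime).card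

/-- `AlmostAll` holds for almost all members of the three kinds of families: (1) the integral parts of `F_j(s) (ξ_j)` for all
functions with separated derivatives, (2) the integral parts of `ξ_j a_j(s) + c_j(s)` for all real sequences `a_j` with
`a_j(s + 1) - a_j(s) ≥ s ^ (ρ - 1)` for large `s` and all real sequences `c_j`, (3) the integral parts of `ξ_j ^ a_j(s) + c_j(s)`,
`ξ_j > 1`, for all strictly increasing sequences `a_j` of natural numbers and all real sequences `c_j`. -/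
def HoldsMetrically (ω : Fin g → 𝓞 K) (F₀ : (MvPolynomial (Fin m) (𝓞 K))[X]) (h : Fin D → (MvPolynomial (Fin m) (𝓞 K))[X])
    (r : ℝ) (Z : MvPolynomial (Fin D) (𝓞 K)) : Prop :=
  ∀ ρ : ℝ, 0 < ρ → ρ ≤ 1 → ∀ δ : ℝ, 0 < δ → ∀ A B : ℕ,
    (∀ (u v : Fin (D * g) → ℝ) (F : Fin (D * g) → ℕ → ℝ → ℝ), (∀ j, Spread ρ (u j) (v j) (F j)) →
      ∀ᵐ ξ : Fin (D * g) → ℝ, (∀ j, ξ j ∈ Set.Ioc (u j) (v j)) → AlmostAll ω F₀ h r Z δ A B (fun s j => ⌊F j s (ξ j)⌋)) ∧
    (∀ a c : Fin (D * g) → ℕ → ℝ, (∀ j, ∀ᶠ s : ℕ in atTop, (s : ℝ) ^ (ρ - 1) ≤ a j (s + 1) - a j s) →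
      ∀ᵐ ξ : Fin (D * g) → ℝ, AlmostAll ω F₀ h r Z δ A B (fun s j => ⌊ξ j * a j s + c j s⌋)) ∧
    (∀ (a : Fin (D * g) → ℕ → ℕ) (c : Fin (D * g) → ℕ → ℝ), (∀ j, StrictMono (a j)) →
      ∀ᵐ ξ : Fin (D * g) → ℝ, (∀ j, 1 < ξ j) → AlmostAll ω F₀ h r Z δ A B (fun s j => ⌊ξ j ^ a j s + c j s⌋))

lemma average_eq (F : (MvPolynomial (Fin m) (𝓞 K))[X]) (v : HeightOneSpectrum (𝓞 K)) :
    average F v = Pool.Agent.N647.NG.AA (Pool.Agent.N647.NG.mkv v) F := by
  have hq : norm v = Nat.card (𝓞 K ⧸ v.asIdeal) := by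
    unfold norm
    rw [Pool.Agent.N842.HS.norm_card]
  unfold average Pool.Agent.N647.NG.AA
  rw [hq]
  rfl

lemma partialSum_eq (F : (MvPolynomial (Fin m) (𝓞 K))[X]) (r : ℝ) (w : HeightOneSpectrum (𝓞 K) → ℝ) (T : ℕ)
    (R : Set (HeightOneSpectrum (𝓞 K))) [DecidablePred (fun v => v ∉ R)] :
    partialSum F r w T R = ∑ v ∈ (Pool.Agent.N842.HS.VT K T).filter (fun v => v ∉ R),
      w v * ((Pool.Agent.N647.NG.AA (Pool.Agent.N647.NG.mkv v) F + r) * Real.log (Ideal.absNorm v.asIdeal)) := by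
  classical
  have h1 : {v : HeightOneSpectrum (𝓞 K) | Ideal.absNorm v.asIdeal ≤ T ∧ v ∉ R} =
      (((Pool.Agent.N842.HS.VT K T).filter (fun v => v ∉ R) : Finset (HeightOneSpectrum (𝓞 K))) : Set (HeightOneSpectrum (𝓞 K))) := by
    ext v
    rw [mem_coe, mem_filter, Pool.Agent.N842.HS.mem_VT]
    exact Iff.rfl
  unfold partialSum
  rw [h1, finsum_mem_coe_finset]
  refine sum_congr rfl fun v _ => ?_
  rw [average_eq]
  rfl

lemma dirichlet_eq (F : (MvPolynomial (Fin m) (𝓞 K))[X]) (r : ℝ) (w : HeightOneSpectrum (𝓞 K) → ℝ) (T₁ T₂ : ℕ)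
    (R : Set (HeightOneSpectrum (𝓞 K))) (z : ℂ) [DecidablePred (fun v => v ∉ R ∧ T₁ < Ideal.absNorm v.asIdeal)] :
    dirichlet F r w T₁ T₂ R z = ∑ v ∈ (Pool.Agent.N842.HS.VT K T₂).filter (fun v => v ∉ R ∧ T₁ < Ideal.absNorm v.asIdeal),
      ((w v * ((Pool.Agent.N647.NG.AA (Pool.Agent.N647.NG.mkv v) F + r) *
        Real.log (Ideal.absNorm v.asIdeal)) : ℝ) : ℂ) * (Ideal.absNorm v.asIdeal : ℂ) ^ (-z) := by
  classical
  have h1 : {v : HeightOneSpectrum (𝓞 K) | T₁ < Ideal.absNorm v.asIdeal ∧ Ideal.absNorm v.asIdeal ≤ T₂ ∧ v ∉ R} =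
      (((Pool.Agent.N842.HS.VT K T₂).filter (fun v => v ∉ R ∧ T₁ < Ideal.absNorm v.asIdeal) : Finset (HeightOneSpectrum (𝓞 K))) :
        Set (HeightOneSpectrum (𝓞 K))) := by
    ext v
    rw [mem_coe, mem_filter, Pool.Agent.N842.HS.mem_VT]
    constructor
    · rintro ⟨h1, h2, h3⟩
      exact ⟨h2, h3, h1⟩
    · rintro ⟨h2, h3, h1⟩
      exact ⟨h1, h2, h3⟩
  unfold dirichlet
  rw [h1, finsum_mem_coe_finset]
  refine sum_congr rfl fun v _ => ?_
  rw [average_eq]
  unfold norm
  push_cast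
  rfl

lemma g_pos (ω : Fin g → 𝓞 K) (hω : Submodule.span ℤ (Set.range ω) = ⊤) : 1 ≤ g := by
  rcases Nat.eq_zero_or_pos g with h0 | h0
  · subst h0
    rw [Set.range_eq_empty, Submodule.span_empty] at hω
    have h1 : (1 : 𝓞 K) ∈ (⊥ : Submodule ℤ (𝓞 K)) := by
      rw [hω]
      exact Submodule.mem_top
    rw [Submodule.mem_bot] at h1
    exact absurd h1 one_ne_zero
  · exact h0

theorem holds_main (hm : 1 ≤ m) (hD : 1 ≤ D) (ω : Fin g → 𝓞 K) (hω : Submodule.span ℤ (Set.range ω) = ⊤)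
    (F₀ : (MvPolynomial (Fin m) (𝓞 K))[X]) (h : Fin D → (MvPolynomial (Fin m) (𝓞 K))[X])
    (hF : F₀.Monic) (ho : Odd F₀.natDegree) (hh : ∀ i, (h i).natDegree < F₀.natDegree) (r C₀ : ℝ)
    (S : Set (HeightOneSpectrum (𝓞 K))) (hS : S.Finite) (hs : ∀ v ∉ S, Separated v h)
    (hb : ∀ v ∉ S, |coverPoints v F₀ h - basePoints v h - r * norm v ^ m| ≤ C₀ * (norm v ^ m / Real.sqrt (norm v)))
    (Z : MvPolynomial (Fin D) (𝓞 K)) (hZ : Z ≠ 0) : HoldsMetrically ω F₀ h r Z := by
  classical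
  intro ρ hρ hρ1 δ hδ A B
  obtain ⟨g', hg'⟩ := ho
  have hDg : 1 ≤ D * g := Nat.one_le_iff_ne_zero.2 (Nat.mul_ne_zero (by omega) (by have := g_pos ω hω; omega))
  haveI : Nonempty (Fin (D * g)) := ⟨⟨0, hDg⟩⟩
  refine Pool.Agent.N54.ME.three hρ hρ1 (AlmostAll ω F₀ h r Z δ A B) fun z hz hpos => ?_
  obtain ⟨κ, hκ, h1⟩ := Pool.Agent.Zk66.NG.anaWS hm F₀ h hF hg' (fun i => by rw [← hg']; exact hh i) r C₀ S hS hs hb Z hZ ω hω
    (Pool.Agent.N54.ME.kap_pos hρ (Fintype.card (Fin (D * g)))) δ hδ A B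
  obtain ⟨y₀, h1⟩ := h1 z (fun s j => (z s j).toNat) hz (hpos.mono fun s hs j => (Int.toNat_of_nonneg (hs j)).symm)
  refine ⟨κ, hκ, y₀, fun y N hy W hW hWc hW1 => ?_⟩
  refine h1 y N hy W hW hWc hW1 (fun n => Good ω F₀ h r Z δ κ B y N W n) fun n hn w hw R hR => ?_
  obtain ⟨h2, h3⟩ := hn w hw R hR
  refine ⟨fun T hyT hTN => ?_, fun T₁ T₂ hyT hT hTN z hz1 hz2 => ?_⟩
  · rw [partialSum_eq]
    exact h2 T hyT hTN
  · rw [dirichlet_eq]
    exact h3 T₁ T₂ hyT hT hTN z hz1 hz2

end

section explicit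
variable (K : Type) [Field K] [NumberField K] (d r e m : ℕ)

/-- `(x - 1) ⋯ (x - r)`. -/
noncomputable def linearFactors : (MvPolynomial (Fin (m + 1)) (𝓞 K))[X] :=
  ∏ j ∈ range r, (X - C (((j + 1 : ℕ) : MvPolynomial (Fin (m + 1)) (𝓞 K))))

/-- `(x - 1) ⋯ (x - r) x ^ (d - r) + t_0 ^ 2`. -/
noncomputable def fixedPart : (MvPolynomial (Fin (m + 1)) (𝓞 K))[X] := linearFactors K r m * X ^ (d - r) + C (MvPolynomial.X 0 ^ 2)

/-- The exponents `(a, α)` with `a < d - r` and `α_k ≤ e`, `0 ≤ k ≤ m`. -/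
abbrev Exponents : Type := Fin (d - r) × (Fin (m + 1) → Fin (e + 1))

/-- `(x - 1) ⋯ (x - r) x ^ a t ^ α` for `i = (a, α)`. -/
noncomputable def variablePart (i : Exponents d r e m) : (MvPolynomial (Fin (m + 1)) (𝓞 K))[X] :=
  linearFactors K r m * (X ^ (i.1 : ℕ) * C (∏ k, MvPolynomial.X k ^ (i.2 k : ℕ)))

end explicit

/-- **Part 1.** Let `K` be a number field, `m ≥ 1`, `ω_1, ..., ω_g` generators of the group `𝓞 K` (for example an integral basis), `F₀`
a polynomial in `x` and `t = (t_1, ..., t_m)` over `𝓞 K` which is monic of odd degree in `x`, and `h_1, ..., h_D` polynomials of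
smaller degree in `x`. Suppose that for all but finitely many prime ideals `v` the `h_i` separate the points outside the base locus
over the residue field, and that the sum of the quadratic character of `F₀` over the base locus is `r q_v ^ m` up to
`O(q_v ^ (m - 1 / 2))` (for example if the base locus consists of `r` sections over which `F₀` is a square). Then `HoldsMetrically`,
for every nonzero polynomial `Z`: for the fibrations in the curves `y² = F₀(t, x) + ∑ c_i h_i(t, x)` with `c_i = ∑ z_(i,j)(s) ω_j`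
the sums `∑ w(v) (𝔄_v + r) log(q_v)`, `q_v ≤ T`, are at most `T ^ (1 / 2 + δ)` for `y ≤ T ≤ N ^ κ`, and the Dirichlet polynomials
`∑ w(v) (𝔄_v + r) log(q_v) q_v ^ (-z)`, `T₁ < q_v ≤ T₂`, are at most `T₁ ^ (1 / 2 + δ - Re z)` for `y ≤ T₁ ≤ T₂ ≤ N ^ κ` and
`Re z ≥ 1 / 2 + δ`, `|Im z| ≤ T₁ ^ B`, for almost all integers, and almost all primes, `s` in `(N, 2 N]`, for almost all sequences
`z` of the three kinds.

**Part 2.** This is the case for the families `y² = (x - 1) ⋯ (x - r) (x ^ (d - r) + G_c(t, x)) + t_0 ^ 2`, where `G_c` is the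
polynomial with all the monomials `x ^ a t ^ α` with `a < d - r` and `α_k ≤ e`, for odd `d ≥ r + 2` and `e ≥ 1`, which have the
sections `(j, t_0)`, `1 ≤ j ≤ r` (`E` is an enumeration of the monomials). -/
theorem result :
    (∀ (K : Type) [Field K] [NumberField K] (m D g : ℕ), 1 ≤ m → 1 ≤ D → ∀ ω : Fin g → 𝓞 K,
      Submodule.span ℤ (Set.range ω) = ⊤ →
      ∀ (F₀ : (MvPolynomial (Fin m) (𝓞 K))[X]) (h : Fin D → (MvPolynomial (Fin m) (𝓞 K))[X]),
      F₀.Monic → Odd F₀.natDegree → (∀ i, (h i).natDegree < F₀.natDegree) → ∀ (r C₀ : ℝ) (S : Set (HeightOneSpectrum (𝓞 K))), S.Finite →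
      (∀ v ∉ S, Separated v h) →
      (∀ v ∉ S, |coverPoints v F₀ h - basePoints v h - r * norm v ^ m| ≤ C₀ * (norm v ^ m / Real.sqrt (norm v))) →
      ∀ Z : MvPolynomial (Fin D) (𝓞 K), Z ≠ 0 → HoldsMetrically ω F₀ h r Z) ∧
    (∀ (K : Type) [Field K] [NumberField K] (d r e m D g : ℕ), r + 2 ≤ d → Odd d → 1 ≤ e →
      ∀ ω : Fin g → 𝓞 K, Submodule.span ℤ (Set.range ω) = ⊤ → ∀ E : Fin D ≃ Exponents d r e m,
      ∀ Z : MvPolynomial (Fin D) (𝓞 K), Z ≠ 0 →
        HoldsMetrically ω (fixedPart K d r m) (fun i => variablePart K d r e m (E i)) r Z) := by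
  refine ⟨fun K _ _ m D g hm hD ω hω F₀ h hF ho hh r C₀ S hS hs hb Z hZ => holds_main hm hD ω hω F₀ h hF ho hh r C₀ S hS hs hb Z hZ,
    fun K _ _ d r e m D g hd ho he ω hω E Z hZ => ?_⟩
  have hD : 1 ≤ D := by
    by_contra hcon
    have h0 : D = 0 := by omega
    subst h0
    exact (E.symm (⟨0, by omega⟩, fun _ => 0)).elim0
  obtain ⟨h2, h3⟩ := Pool.Agent.N647.NG.Fe_deg (𝓞 K) d r m (by omega)
  refine holds_main (by omega) hD ω hω _ _ h2 ?_ (fun i => ?_) r r _ (Pool.Agent.N647.NG.finite_e r) (fun v _ => ?_) (fun v hv => ?_) Z hZ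
  · rw [h3]
    exact ho
  · rw [h3]
    exact Pool.Agent.N647.NG.he_deg (𝓞 K) d r e m (by omega) (E i)
  · exact Pool.Agent.N647.NG.sepV_e d r e m D E hd he v
  · rw [Set.mem_union, not_or] at hv
    exact Pool.Agent.N647.NG.base_e d r e m D E hd v hv.1 hv.2

end Pool.Agent.Results.MP_1a0ddd_nt.MetricSequences
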