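import Pool.Agent.Zk97.CB.A5
import Pool.Agent.Zk20.CB.Q
import Pool.Agent.Zk52.CB.D
import Pool.Agent.Zk52.CB.S
import Pool.Agent.Zk64.CB.CC
import Pool.Agent.Zk66.CB.U
import Pool.Agent.Zk78.CB.Y
import Pool.Agent.Zk78.CB.L
import Pool.Agent.Zk86.CB.J

set_option autoImplicit false

/-!
# The Tauberian generalized Nagao conjecture for all pencils of plane curves

Let `M` be a finitely generated field of characteristic zero, of transcendence degree `e` over `ℚ`,
which contains the number field `k`, and let `P₀, P₁` be forms of degree `d` in three variables over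
`M`, without a common factor. We study the generic member `C` of the pencil spanned by them, a plane
curve of degree `d` over `K = M(w)`, the function field of a variety of dimension `m = e + 1` over `k`;
assume that `C` is smooth. (As `M` is arbitrary, this contains the generic members `∑ w_i P_i` of all
linear systems of plane curves, and `M(w)` contains all the purely transcendental extensions of `k`, and
the rational function fields over all the function fields over `k`.)

Coordinates: as `M` is infinite, there is a line over `M` which contains no base point; take it as the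
line at infinity, and take `(0 : 1 : 0)` as one of its points. After a change of the basis of the pencil
(which is a change of `w` by a fractional linear map) the pencil is spanned by `B = y^d + ...` and `A`
where `A` does not contain `y^d`. So in affine coordinates any pencil as above has the form
`C : B(x, y) = w A(x, y)` where `A` and `B` have the degree `≤ d`, the coefficient of `y^d` is `1` in `B`
and `0` in `A`, and the forms of degree `d` of `A` and `B` are coprime (no base point at infinity). Then
the form of degree `d` of `B - w A` is irreducible over `K`. Hence `C` is smooth if its affine part is,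
and `C` has one closed point at infinity, which is of degree `d`, the hyperplane class. So the rank of
`J(K)`, `J` the Jacobian of `C`, of dimension `(d - 1) (d - 2) / 2`, is the rank of the class group of
`K[x, y] / (B - w A)`.

The algebraic side: `rank J(K) = β - α - ∑_p (γ_p - 1)` where `β` is the number of the closed points over
`M` of the base locus `A = B = 0`, `α` is the number of the irreducible components over `M` of the curve
`A = 0` (the member at `w = ∞`), and `γ_p` is the number of the irreducible components over `M` of the
member at the closed point `p` of the line `Spec M[w]` (the union of the conjugate members). For example,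
for `d = 3` and nine different base points over `M` the rank is `8` if there is no reducible member; the
maximum for degree `d` is `d² - 1`.

The analytic side: let `R` be any model of `K` over the integers of `k`, that is any integral domain which
is finitely generated as a ring, contains the integers of `k` and has the field of fractions `K`, and over
which the curve has an equation `G = 0`, and let `N` be any nonzero element of `R`.  Let `𝔄_v` be the
average of the traces over the points of `Spec R` above `v`, rational over the residue field, with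
`N ≠ 0` and with a good fibre, that is, smooth and transversal to the line at infinity. (There is a
nonzero `N₀` such that all the fibres over the points with `N₀ ≠ 0` are good.) Then the averages
`T⁻¹ ∑_{q_v ≤ T} 𝔄_v log q_v` converge to `-rank J(K)` for `T → ∞`.

The theorem applies to `M k'` for all the finite extensions `k'` of `k`, and the rank remains bounded (by
the number `≤ d²` of the geometric base points). Thus the `K/k`-trace of `J` is zero, and `𝔄* = 𝔄`.

The proof. (a) `K[x, y, 1/A] / (B - w A)` is a localization of `M[x, y]`, so it is factorial, and the class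
group of the Dedekind domain `K[x, y] / (B - w A)` is generated by the primes over the base points. All
relations come from the components of the members and from units; the units are the constants, as `C` has
only one closed point at infinity. Good members are irreducible (smooth plane curves). (b) Over a finite
field with `q` elements the sum over `w` of `#(B = w A) - q` is `q #(A = B = 0) - #(A = 0)`; the members
over the zeros of the discriminant have to be subtracted, they form a plane curve whose components are
those of these members. The average number of the points of a variety is the number of its components of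
the maximal dimension (Lang, Weil and Landau, for all finitely generated fields). (c) Different models are
compared with a uniform form of Weil's bound for plane curves of degree `d`.
-/

namespace Pool.Agent.Results.MP_1a0ddd_nt.PlanePencils

open Polynomial NumberField IsDedekindDomain Filter Topology

section
variable {R : Type} [CommRing R]

/-- The degree of `P` is at most `d`. (`P : R[X][X]` is a polynomial in `y`, the outer variable, with
coefficients in `R[x]`.) -/
def DegLe (d : ℕ) (P : R[X][X]) : Prop := ∀ i j : ℕ, (P.coeff i).coeff j ≠ 0 → i + j ≤ d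

/-- The curve `P = 0` has the degree `d` and does not contain the point `(0 : 1 : 0)`; normalized by: the
coefficient of `y^d` is `1`. -/
def IsPlane (d : ℕ) (P : R[X][X]) : Prop := DegLe d P ∧ P.coeff d = 1

/-- The form of degree `d` of `P`, for `x = 1`, as a polynomial in `y`. Its zeros are the points at
infinity (if `(0 : 1 : 0)` is not on the curve). -/
noncomputable def atInf (d : ℕ) (P : R[X][X]) : R[X] :=
  ∑ i ∈ Finset.range (d + 1), C ((P.coeff i).coeff (d - i)) * X ^ i

/-- The partial derivative with respect to `x`. -/
noncomputable def dx (P : R[X][X]) : R[X][X] :=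
  ∑ i ∈ Finset.range (P.natDegree + 1), C (derivative (P.coeff i)) * X ^ i

/-- The affine curve `P = 0` is smooth: `P` and its partial derivatives generate the unit ideal. -/
def Smooth (P : R[X][X]) : Prop := ∃ u v s : R[X][X], u * P + v * dx P + s * derivative P = 1

/-- `P = 0` is a smooth plane curve of degree `d`, transversal to the line at infinity (and without the
point `(0 : 1 : 0)`). -/
def Good (d : ℕ) (P : R[X][X]) : Prop :=
  IsPlane d P ∧ Smooth P ∧ IsCoprime (atInf d P) (derivative (atInf d P))

/-- `a ^ deg D * D(b / a)`, the equation of the union of the members `b = w a` for the zeros `w` of `D`. -/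
noncomputable def members (D : R[X]) (b a : R[X][X]) : R[X][X] :=
  ∑ i ∈ Finset.range (D.natDegree + 1), C (C (D.coeff i)) * b ^ i * a ^ (D.natDegree - i)

end

/-- The generic member `B - w A` of the pencil, a polynomial over `K`. -/
noncomputable def generic {M K : Type} [Field M] [Field K] [Algebra M K] (A B : M[X][X]) (w : K) :
    K[X][X] :=
  B.map (mapRingHom (algebraMap M K)) - C (C w) * A.map (mapRingHom (algebraMap M K))

/-- The number of the closed points over `M` of the base locus `A = B = 0`. -/
noncomputable def basePoints {M : Type} [Field M] (A B : M[X][X]) : ℕ :=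
  Nat.card {𝔪 : Ideal M[X][X] // 𝔪.IsMaximal ∧ A ∈ 𝔪 ∧ B ∈ 𝔪}

/-- The number of the irreducible components over `M` of the curve `P = 0`. -/
noncomputable def components {M : Type} [Field M] (P : M[X][X]) : ℕ :=
  Nat.card {𝔭 : Ideal M[X][X] // ∃ π : M[X][X], Irreducible π ∧ π ∣ P ∧ 𝔭 = Ideal.span {π}}

/-- `α + ∑_p (γ_p - 1)`, the sum over the closed points `p` of the line, that is over the monic
irreducible polynomials in `M[w]`. -/
noncomputable def correction {M : Type} [Field M] (A B : M[X][X]) : ℕ :=
  components A + ∑ᶠ p : {p : M[X] // p.Monic ∧ Irreducible p}, (components (members p.1 B A) - 1)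

/-- The trace of the Frobenius on `H¹` of the smooth plane curve `P = 0` of degree `d` over the finite
field `F`, transversal to the line at infinity and without the point `(0 : 1 : 0)`: the number of the
elements of `F` plus `1`, minus the numbers of the affine points and of the points at infinity. -/
noncomputable def traceOne (d : ℕ) (F : Type) [Field F] (P : F[X][X]) : ℝ :=
  (Nat.card F : ℝ) + 1 - Nat.card {z : F × F // evalEval z.1 z.2 P = 0} -
    Nat.card {y : F // (atInf d P).eval y = 0}

/-- The average `𝔄_v = q_v^{-m} ∑ a(fibre)` of the traces of the fibres of `G = 0` over the points of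
`Spec R` above `v`, rational over the residue field of `v`, at which `N` does not vanish and the fibre is
good. -/
noncomputable def average {k R : Type} [Field k] [NumberField k] [CommRing R] [Algebra (𝓞 k) R] (d : ℕ)
    (G : R[X][X]) (N : R) (m : ℕ) (v : HeightOneSpectrum (𝓞 k)) : ℝ :=
  ((Nat.card (𝓞 k ⧸ v.asIdeal) : ℝ) ^ m)⁻¹ *
    ∑ᶠ φ : {φ : R →+* 𝓞 k ⧸ v.asIdeal //
      φ.comp (algebraMap (𝓞 k) R) = Ideal.Quotient.mk v.asIdeal ∧ φ N ≠ 0 ∧
        Good d (G.map (mapRingHom φ))},
        traceOne d (𝓞 k ⧸ v.asIdeal) (G.map (mapRingHom φ.1))

/-- `Σ_T(b) = ∑_{v ∉ S, q_v ≤ T} b(v) log q_v`. -/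
noncomputable def sumUpTo {k : Type} [Field k] [NumberField k] (S : Finset (HeightOneSpectrum (𝓞 k)))
    (b : HeightOneSpectrum (𝓞 k) → ℝ) (T : ℝ) : ℝ :=
  ∑ᶠ v ∈ {v : HeightOneSpectrum (𝓞 k) | v ∉ S ∧ (Ideal.absNorm v.asIdeal : ℝ) ≤ T},
    b v * Real.log (Ideal.absNorm v.asIdeal : ℝ)

/-- **The Tauberian generalized Nagao conjecture for all pencils of plane curves of degree `d` with smooth
generic member over `M(w)`, for an arbitrary finitely generated field `M` of characteristic zero and for
every model.** -/
theorem result {k : Type} [Field k] [NumberField k] {M : Type} [Field M] [CharZero M] [Algebra k M]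
    (hM : ∃ S : Finset M, Subfield.closure (S : Set M) = ⊤) {e : ℕ} (he : Algebra.trdeg ℚ M = e)
    {K : Type} [Field K] [CharZero K] [Algebra M K] {w : K} (hw : Transcendental M w)
    (hK : IntermediateField.adjoin M {w} = ⊤)
    {d : ℕ} (hd : 0 < d) {A B : M[X][X]} (hB : IsPlane d B) (hA : DegLe d A) (hA0 : A.coeff d = 0)
    (hAB : IsCoprime (atInf d A) (atInf d B)) (hs : Smooth (generic A B w)) :
    Algebra.trdeg ℚ K = (e + 1 : ℕ) ∧ Irreducible (generic A B w) ∧ Good d (generic A B w) ∧
    Irreducible (atInf d (generic A B w)) ∧
    -- the algebraic side: the rank of `J(K)`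
    Finite {𝔪 : Ideal M[X][X] // 𝔪.IsMaximal ∧ A ∈ 𝔪 ∧ B ∈ 𝔪} ∧
    (∀ P : M[X][X], P ≠ 0 →
      Finite {𝔭 : Ideal M[X][X] // ∃ π : M[X][X], Irreducible π ∧ π ∣ P ∧ 𝔭 = Ideal.span {π}}) ∧
    (∀ p : M[X], p.Monic ∧ Irreducible p → members p B A ≠ 0 ∧ 1 ≤ components (members p B A)) ∧
    {p : M[X] | (p.Monic ∧ Irreducible p) ∧ components (members p B A) ≠ 1}.Finite ∧
    correction A B ≤ basePoints A B ∧
    (∃ _ : IsDedekindDomain (AdjoinRoot (generic A B w)),
      Module.rank ℤ (Additive (ClassGroup (AdjoinRoot (generic A B w)))) =
        (basePoints A B - correction A B : ℕ)) ∧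
    -- the analytic side: the limit of the averages of the `𝔄_v`, for every model
    ∀ (R : Type) [CommRing R] [IsDomain R] [Algebra.FiniteType ℤ R] [Algebra R K]
      [IsFractionRing R K] [Algebra (𝓞 k) R],
      (∀ z : 𝓞 k, algebraMap R K (algebraMap (𝓞 k) R z) = algebraMap M K (algebraMap k M z)) →
      ∀ G : R[X][X], G.map (mapRingHom (algebraMap R K)) = generic A B w →
        (∃ N₀ : R, N₀ ≠ 0 ∧ ∀ (F : Type) [Field F] (φ : R →+* F), φ N₀ ≠ 0 →
          Good d (G.map (mapRingHom φ))) ∧
        ∀ N : R, N ≠ 0 → ∀ S : Finset (HeightOneSpectrum (𝓞 k)),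
          Tendsto (fun T : ℝ => sumUpTo S (fun v => average d G N (e + 1) v) T / T) atTop
            (𝓝 (-((basePoints A B - correction A B : ℕ) : ℝ))) := by
  classical
  have hP : Pool.Agent.Zk97.CB.PP d A B := ⟨hd, hB, hA, hA0, hAB⟩
  have hU := Pool.Agent.Zk66.CB.t_U
  have hS := Pool.Agent.Zk52.CB.t_S
  have hD := Pool.Agent.Zk52.CB.t_D
  have hQ := Pool.Agent.Zk20.CBQ.t_Q
  have hJ := Pool.Agent.Zk86.CB.t_J
  have hY := Pool.Agent.Zk78.CB.t_Y hS
  have hC := Pool.Agent.Zk64.CB.t_C
  have hL := Pool.Agent.Zk78.CB.t_L
  have hK' : ∀ z : K, ∃ p q : M[X], aeval w q ≠ 0 ∧ z * aeval w q = aeval w p :=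
    fun z => Pool.Agent.R410.NG.gen_line hK z hw
  have hs' : Pool.Agent.Zk97.CB.Smooth (Pool.Agent.Zk97.CB.ff w A B) := hs
  have hg := hP.gp hU hw hK'
  obtain ⟨hT, hfin, hrank⟩ := hP.rank hU hD hQ hJ hw hK' hs'
  have f1 : (Ideal.span {A, B}).minimalPrimes.Finite :=
    Ideal.finite_minimalPrimes_of_isNoetherianRing _ _
  have c1 : basePoints A B = (Ideal.span {A, B}).minimalPrimes.ncard := hg.bpts_eq hD
  have c2 : correction A B = Pool.Agent.Zk97.CB.om A +
      ∑ᶠ p : Pool.Agent.Zk97.CB.MPt M, (Pool.Agent.Zk97.CB.om (Pool.Agent.Zk97.CB.hm p.1 B A) - 1) := by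
    rw [← hg.sum_eq, ← Pool.Agent.Zk97.CB.comps_eq hP.A_ne]
    rfl
  have hmem : ∀ p : M[X], p.Monic ∧ Irreducible p → members p B A ≠ 0 ∧
      components (members p B A) = Pool.Agent.Zk97.CB.om (members p B A) := fun p hp => by
    have h1 : members p B A ≠ 0 := (Pool.Agent.Zk97.CB.hm_deg hg.pen hp.2.ne_zero).2
    exact ⟨h1, Pool.Agent.Zk97.CB.comps_eq h1⟩
  rw [← c1, ← c2] at hrank
  have hle : correction A B ≤ basePoints A B := by
    have h1 : ((correction A B : ℕ) : Cardinal) ≤ ((basePoints A B : ℕ) : Cardinal) := by
      rw [← hrank]
      exact le_add_self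
    exact_mod_cast h1
  refine ⟨Pool.Agent.R410.NG.trdeg_line he hw hK, (hP.irr hU hw hK').1, hP.good hw hK' hs',
    hP.irr_top hw hK', ?_, ?_, ?_, ?_, hle, ⟨hT, ?_⟩, ?_⟩
  · rw [← hg.base_eq hD] at f1
    exact f1
  · intro P hP0
    have f2 : (Ideal.span {P}).minimalPrimes.Finite :=
      Ideal.finite_minimalPrimes_of_isNoetherianRing _ _
    rw [← Pool.Agent.Zk97.CB.comp_eq hP0] at f2
    exact f2
  · intro p hp
    refine ⟨(hmem p hp).1, ?_⟩
    rw [(hmem p hp).2]
    exact hg.om_pos ⟨p, hp⟩
  · refine ((hg.supp_finite hfin).image (fun p => p.1)).subset ?_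
    rintro p ⟨hp, h1⟩
    refine ⟨⟨p, hp⟩, ?_, rfl⟩
    rw [(hmem p hp).2] at h1
    exact h1
  · have hT' : IsDedekindDomain (AdjoinRoot (generic A B w)) := hT
    have h1 : Module.rank ℤ (Additive (ClassGroup (AdjoinRoot (generic A B w)))) + (correction A B : Cardinal) =
        ((basePoints A B - correction A B : ℕ) : Cardinal) + (correction A B : Cardinal) := by
      rw [← Nat.cast_add, Nat.sub_add_cancel hle]
      exact hrank
    exact (Cardinal.add_nat_inj _).1 h1
  · intro R _ _ _ _ _ _ hk G hG
    have hGc : Pool.Agent.Zk97.CB.IsPlane d G :=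
      Pool.Agent.Zk97.CB.plane_of_map (IsFractionRing.injective R K) (by
        rw [hG]
        exact hP.ff_plane w)
    refine ⟨?_, ?_⟩
    · refine Pool.Agent.Zk97.CB.spread_good (S := R) (K := K) hGc ?_
      rw [hG]
      exact hP.good hw hK' hs'
    · intro N hN S
      have h6 := hP.natural hU hS hD hY hC hL hM he hw hK hs' R hk G hG hN S
      rw [← c1, ← c2, ← Nat.cast_sub hle] at h6
      have h7 := (Pool.Agent.R410.NG.sumT_lim h6).neg
      refine h7.congr fun T => ?_
      rw [← neg_div, ← Pool.Agent.R410.NG.sumT_neg]
      congr 1
      refine finsum_congr fun v => finsum_congr fun _ => ?_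
      congr 1
      show -Pool.Agent.R410.NG.avg (Pool.Agent.Zk97.CB.wtP d) (Pool.Agent.Zk97.CB.enc d d G) N (e + 1) v =
        average d G N (e + 1) v
      rw [Pool.Agent.Zk97.CB.avg_wtP hGc, ← mul_neg, ← finsum_neg_distrib]
      unfold average
      congr 1
      refine finsum_congr fun φ => ?_
      unfold traceOne Pool.Agent.Zk97.CB.nqP Pool.Agent.Zk97.CB.nq
      show _ = (Nat.card (𝓞 k ⧸ v.asIdeal) : ℝ) + 1 - _ - Nat.card {y : 𝓞 k ⧸ v.asIdeal //
        (Pool.Agent.Zk97.CB.top d (G.map (mapRingHom φ.1))).eval y = 0}
      ring

end Pool.Agent.Results.MP_1a0ddd_nt.PlanePencils
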