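import Pool.Agent.Zk97.CB.B7
import Pool.Agent.Zk20.CB.E
import Pool.Agent.Zk52.CB.D
import Pool.Agent.Zk52.CB.XY
import Pool.Agent.Zk64.CB.CC
import Pool.Agent.Zk66.CB.B
import Pool.Agent.Zk78.CB.V
import Pool.Agent.Zk85.CB.X
import Pool.Agent.Zk86.CB.P
import Pool.Agent.Zk93.CB.H

set_option autoImplicit false

/-!
# The Tauberian generalized Nagao conjecture for all curves with a purely transcendental function field

Let `M` be a finitely generated field of characteristic zero, of transcendence degree `e` over `ℚ`,
which contains the number field `k`, let `K = M(w)` with `w` transcendental over `M`, and let `C` be a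
smooth projective geometrically irreducible curve over `K` whose function field `L` is purely
transcendental over `M`: `L = M(x, y)`. In other words, `C` is the generic fibre of a fibration in curves
`𝒳 → 𝒴` where `𝒴` is birational to `𝒱 × ℙ¹` and `𝒳` to `𝒱 × ℙ²` over a variety `𝒱` with the function
field `M`. We prove the conjecture for all these fibrations: the averages
`T⁻¹ ∑_{q_v ≤ T} 𝔄_v log q_v` converge to `-rank J(K)`, `J` the Jacobian of `C`.

Coordinates: `w = B₀ / A₀` is a rational function on the plane, `A₀` and `B₀` coprime; let `l` be the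
maximum of their total degrees. After a general linear change of the coordinates the coefficient of `y^l`
is not zero in one of them, and after a fractional linear change of `w` it is `1` in one of them and `0` in
the other. So we may assume `w = B / A` where `A, B` are coprime and `B` is monic in `y`, of the degree
`l > deg_y A`; `K = M(w)` is not changed. Thus `C` is the smooth projective model of the plane curve
`B(x, y) = w A(x, y)` over `K`, which may have arbitrary singularities (at the base points and at
infinity). It is absolutely irreducible, as `C` is geometrically irreducible.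

The algebraic side. Let `U` be the open curve `B = w A ≠ 0`. Its coordinate ring
`T = K[x, y, 1/A] / (B - w A)` is a localization of `M[x, y]`. So it is a principal ideal domain, that is,
`U` is smooth, an open subset of `C`, and `Pic U = 0`. The rank of the group of the units of `T` modulo the
constants is `u = α + ∑_p (γ_p - 1)`, where `α` is the number of the irreducible components over `M` of the
plane curve `A = 0` and `γ_p` is the number of the irreducible components over `M` of the member at the
closed point `p` of the line `Spec M[w]`. Let `Z` be the set of the closed points of `C` which are not in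
`U`, that is of the places of `L` over `K` which are not centred at a point of `U`. Then
`rank Pic(C) = #Z - u`, and `rank J(K) = rank Pic(C) - 1` (the group of the divisor classes of degree `0` is
of finite index in the finitely generated group `J(K)`). Here `Pic(C)` is formalized as the group of the
divisors (functions on the set of the places of `L` over `K`, almost all `0`, with values in the value
groups, which are infinite cyclic) modulo the divisors of the functions.

The analytic side. Let `R` be any model of `K` over the integers of `k`: any integral domain, finitely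
generated as a ring, which contains the integers of `k` and has the field of fractions `K`, and such that
`C` is given by polynomials `G` and `a` over `R` (equal to `B - w A` and `A` over `K`). Moreover let `E_z`
be any model over `R` of the residue field of the point `z ∈ Z`. As `C` is the disjoint union of `U` and
`Z`, the number of the points of the fibre `C_φ` of a smooth projective model of `C` over a general point
`φ : R → F` is the number of the solutions of `G_φ = 0 ≠ a_φ` in `F`, plus the number of the `F`-points of
`E_z` above `φ` for all `z ∈ Z`; the trace of the Frobenius on `H¹` is `q + 1` minus this number. `𝔄_v` is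
the average of these traces over the points of `Spec R` above `v` at which `N` and `a_φ` are not zero and
`G_φ` is absolutely irreducible. Here `N` is any nonzero element of `R`, for example one which vanishes at
all points where the fibre is not smooth or where the above decomposition is not true; and there is a
nonzero `N₀` such that the conditions on `a_φ` and `G_φ` hold at all points with `N₀ ≠ 0`.

The `K/k`-trace of `J` is zero, as `𝒳` and `𝒴` have the same Albanese variety (that of `𝒱`), so `𝔄* = 𝔄`.

The proof. (a) `M[x, y]` is factorial. (b) The sum over `w` of the numbers of the points of the curves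
`B = w A ≠ 0` over a finite field is the number of the points of the plane outside `A = 0`; the members over
the zeros of the discriminant have to be subtracted. The numbers of the points of varieties are estimated
with Lang, Weil and Landau for all finitely generated fields. (c) Different models are compared with the
bound of Weil for absolutely irreducible plane curves, and good members are found with the theorem of
Bertini and Noether.
-/

namespace Pool.Agent.Results.MP_1a0ddd_nt.RationalTotalSpaces

open Polynomial NumberField IsDedekindDomain Filter Topology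

/-- `G` is absolutely irreducible: irreducible over all field extensions. -/
def AbsIrr {F : Type} [Field F] (G : F[X][X]) : Prop :=
  ∀ (k : Type) [Field k] (φ : F →+* k), Irreducible (G.map (mapRingHom φ))

/-- `A ^ deg D * D(B / A)`, the equation of the union of the members `B = w A` for the zeros `w` of `D`. -/
noncomputable def members {M : Type} [Field M] (D : M[X]) (B A : M[X][X]) : M[X][X] :=
  ∑ i ∈ Finset.range (D.natDegree + 1), C (C (D.coeff i)) * B ^ i * A ^ (D.natDegree - i)

/-- The generic member `B - w A`, a polynomial over `K`. -/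
noncomputable def generic {M K : Type} [Field M] [Field K] [Algebra M K] (A B : M[X][X]) (w : K) :
    K[X][X] :=
  B.map (mapRingHom (algebraMap M K)) - C (C w) * A.map (mapRingHom (algebraMap M K))

/-- The number of the irreducible components over `M` of the curve `P = 0`. -/
noncomputable def components {M : Type} [Field M] (P : M[X][X]) : ℕ :=
  Nat.card {𝔭 : Ideal M[X][X] // ∃ π : M[X][X], Irreducible π ∧ π ∣ P ∧ 𝔭 = Ideal.span {π}}

/-- `α + ∑_p (γ_p - 1)`, the sum over the closed points `p` of the line, that is over the monic
irreducible polynomials in `M[w]`. -/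
noncomputable def unitNumber {M : Type} [Field M] (A B : M[X][X]) : ℕ :=
  components A + ∑ᶠ p : {p : M[X] // p.Monic ∧ Irreducible p}, (components (members p.1 B A) - 1)

section
variable {K L : Type} [Field K] [Field L] [Algebra K L]

variable (K L) in
/-- The places of `L` over `K`: the closed points of the smooth projective curve over `K` with the
function field `L`. -/
def Place : Type := {O : ValuationSubring L // (∀ c : K, algebraMap K L c ∈ O) ∧ O ≠ ⊤}

/-- The residue field of a place. -/
def Residue (O : Place K L) : Type := IsLocalRing.ResidueField O.1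

noncomputable instance (O : Place K L) : Field (Residue O) := IsLocalRing.ResidueField.field O.1

/-- The homomorphism from `K` to the residue field of a place. -/
noncomputable def constants (O : Place K L) : K →+* Residue O :=
  (IsLocalRing.residue O.1).comp ((algebraMap K L).codRestrict O.1.toSubring O.2.1)

/-- The group of the values at a place (it is infinite cyclic), written additively. -/
def Value (O : Place K L) : Type := Additive (O.1.ValueGroup)ˣ

noncomputable instance (O : Place K L) : AddCommGroup (Value O) :=
  @Additive.addCommGroup (O.1.ValueGroup)ˣ _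

/-- The valuation of a place. -/
noncomputable def val (O : Place K L) : L →* O.1.ValueGroup := O.1.valuation.toMonoidWithZeroHom

/-- The valuation of a place on the group `Lˣ`. -/
noncomputable def valUnits (O : Place K L) : Lˣ →* (O.1.ValueGroup)ˣ := Units.map (val O)

/-- A homomorphism written additively. -/
def additive {G H : Type} [CommGroup G] [CommGroup H] (f : G →* H) : Additive G →+ Additive H :=
  MonoidHom.toAdditive f

/-- The order of a function at a place. -/
noncomputable def orderAt (O : Place K L) : Additive Lˣ →+ Value O :=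
  additive (G := Lˣ) (H := (O.1.ValueGroup)ˣ) (valUnits O)

variable (K L) in
/-- The orders of a function at all places. -/
noncomputable def order : Additive Lˣ →+ ((O : Place K L) → Value O) :=
  Pi.addMonoidHom orderAt

variable (K L) in
/-- The group of the divisors: almost all coordinates are zero. -/
def Divisor : AddSubgroup ((O : Place K L) → Value O) where
  carrier := {D | {O | D O ≠ 0}.Finite}
  zero_mem' := by simp
  add_mem' := by
    intro a b ha hb
    refine (ha.union hb).subset ?_
    intro O hO
    by_contra hcon
    simp only [Set.mem_union, Set.mem_ofPred_eq, not_or, not_not] at hcon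
    apply hO
    rw [Pi.add_apply, hcon.1, hcon.2, add_zero]
  neg_mem' := by
    intro a ha
    refine ha.subset ?_
    intro O hO
    simpa using hO

variable (K L) in
/-- The group of the principal divisors. -/
noncomputable def Principal : AddSubgroup (Divisor K L) := (order K L).range.comap (Divisor K L).subtype

variable (K L) in
/-- The rank of `Pic(C)`: the rank of the group of the divisors modulo the principal divisors. -/
noncomputable def picRank : Cardinal := Module.rank ℤ (Divisor K L ⧸ Principal K L)

/-- The units of `T` which are constants. -/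
def constantUnits {K T : Type} [Field K] [CommRing T] (f : K →+* T) : Submodule ℤ (Additive Tˣ) :=
  LinearMap.range (MonoidHom.toAdditive (Units.map (f : K →* T))).toIntLinearMap

/-- The rank of the group of the units of `T` modulo the constants. -/
noncomputable def unitRank {K T : Type} [Field K] [CommRing T] (f : K →+* T) : Cardinal :=
  Module.rank ℤ (Additive Tˣ ⧸ constantUnits f)

/-- A model over `R` of the residue field of a place: an `R`-algebra which is an integral domain, finitely
generated as a ring, with this field of fractions. -/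
structure PointModel (R : Type) [CommRing R] [Algebra R K] (O : Place K L) where
  /-- the ring -/
  E : Type
  [ring : CommRing E]
  [dom : IsDomain E]
  [ft : Algebra.FiniteType ℤ E]
  [alg : Algebra R E]
  [algRes : Algebra E (Residue O)]
  [frac : IsFractionRing E (Residue O)]
  comp : ∀ r : R, algebraMap E (Residue O) (algebraMap R E r) = constants O (algebraMap R K r)

attribute [instance] PointModel.ring PointModel.dom PointModel.ft PointModel.alg PointModel.algRes
  PointModel.frac

/-- The number of the `F`-points of a model of the residue field above the `F`-point `φ` of `Spec R`. -/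
noncomputable def PointModel.count {R : Type} [CommRing R] [Algebra R K] {O : Place K L}
    (P : PointModel R O) {F : Type} [Field F] (φ : R →+* F) : ℕ :=
  Nat.card {ψ : P.E →+* F // ψ.comp (algebraMap R P.E) = φ}

/-- The number of the `F`-points above `φ` of models `E z` of the residue fields of the places `O z`. -/
noncomputable def outerPoints {R : Type} [CommRing R] [Algebra R K] {Z : Type} (O : Z → Place K L)
    (E : (z : Z) → PointModel R (O z)) {F : Type} [Field F] (φ : R →+* F) : ℝ :=
  ∑ᶠ z, ((E z).count φ : ℝ)

end

section
variable {M K : Type} [Field M] [Field K] [Algebra M K]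

/-- The closed points of `C` which are not on the open curve `U : B = w A ≠ 0`: the places `O` for which
`x`, `y` and `1 / A(x, y)` are not all in `O`. -/
def Outside (A B : M[X][X]) (w : K) (L : Type) [Field L]
    [Algebra K L] [Algebra (AdjoinRoot (generic A B w)) L] : Type :=
  {O : Place K L // ¬ (algebraMap (AdjoinRoot (generic A B w)) L (AdjoinRoot.of _ X) ∈ O.1 ∧
    algebraMap (AdjoinRoot (generic A B w)) L (AdjoinRoot.root _) ∈ O.1 ∧
    (algebraMap (AdjoinRoot (generic A B w)) L
      (AdjoinRoot.mk _ (A.map (mapRingHom (algebraMap M K)))))⁻¹ ∈ O.1)}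

/-- `L` is purely transcendental over `M`, with generators (the images of `x` and `y` under `θ`) such that
`w = B / A`. -/
def IsRational (A B : M[X][X]) (w : K) (L : Type) [Field L] [Algebra K L] : Prop :=
  ∃ θ : M[X][X] →+* L, Function.Injective θ ∧
    (∀ c : M, θ (C (C c)) = algebraMap K L (algebraMap M K c)) ∧
    (∀ z : L, ∃ P Q : M[X][X], Q ≠ 0 ∧ z * θ Q = θ P) ∧ algebraMap K L w * θ A = θ B

/-- The coordinate ring `T = K[x, y, 1/A] / (B - w A)` of the open curve `U` is a principal ideal domain,
and its group of units has the rank `u` modulo the constants. -/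
def OpenCurve (A B : M[X][X]) (w : K) (u : ℕ) : Prop :=
  ∀ (T : Type) [CommRing T] [Algebra (AdjoinRoot (generic A B w)) T]
    [IsLocalization.Away (AdjoinRoot.mk (generic A B w) (A.map (mapRingHom (algebraMap M K)))) T],
    IsDomain T ∧ IsPrincipalIdealRing T ∧
      unitRank ((algebraMap (AdjoinRoot (generic A B w)) T).comp ((AdjoinRoot.of _).comp C)) = (u : Cardinal)

/-- Curves have finitely many components, the members have at least one, and only finitely many members
are reducible. -/
def MembersFinite (A B : M[X][X]) : Prop :=
  (∀ P : M[X][X], P ≠ 0 →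
    Finite {𝔭 : Ideal M[X][X] // ∃ π : M[X][X], Irreducible π ∧ π ∣ P ∧ 𝔭 = Ideal.span {π}}) ∧
  (∀ p : M[X], p.Monic ∧ Irreducible p → members p B A ≠ 0 ∧ 1 ≤ components (members p B A)) ∧
  {p : M[X] | (p.Monic ∧ Irreducible p) ∧ components (members p B A) ≠ 1}.Finite

/-- `R`, a ring with the field of fractions `K`, contains the integers of `k`, and `G` and `a` are equations
of `B = w A` and of `A = 0` over `R`. -/
def IsModel (k : Type) [Field k] [NumberField k] [Algebra k M] (A B : M[X][X]) (w : K) {R : Type}
    [CommRing R] [Algebra R K] [Algebra (𝓞 k) R] (G a : R[X][X]) : Prop :=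
  (∀ z : 𝓞 k, algebraMap R K (algebraMap (𝓞 k) R z) = algebraMap M K (algebraMap k M z)) ∧
    G.map (mapRingHom (algebraMap R K)) = generic A B w ∧
    a.map (mapRingHom (algebraMap R K)) = A.map (mapRingHom (algebraMap M K))

end

/-- `G` is absolutely irreducible at the point `φ`, and `a` is not zero there. -/
def GoodAt {R F : Type} [CommRing R] [Field F] (G a : R[X][X]) (φ : R →+* F) : Prop :=
  AbsIrr (G.map (mapRingHom φ)) ∧ a.map (mapRingHom φ) ≠ 0

/-- The number of the points of the open curve `G = 0 ≠ a` above the `F`-point `φ` of `Spec R`. -/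
noncomputable def openPoints {R F : Type} [CommRing R] [Field F] (G a : R[X][X]) (φ : R →+* F) : ℕ :=
  Nat.card {P : F × F // evalEval P.1 P.2 (G.map (mapRingHom φ)) = 0 ∧
    evalEval P.1 P.2 (a.map (mapRingHom φ)) ≠ 0}

/-- The average `q_v^{-m} ∑_φ (q_v + 1 - #C_φ)`, where `φ` are the points of `Spec R` above `v` with
coordinates in the residue field of `v`, at which `N` does not vanish and which are good, and `#C_φ` is the
number `openPoints` of the points of the open curve plus the number `c φ`. -/
noncomputable def average {k R : Type} [Field k] [NumberField k] [CommRing R] [Algebra (𝓞 k) R]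
    (G a : R[X][X]) (N : R) (m : ℕ) (v : HeightOneSpectrum (𝓞 k)) (c : (R →+* 𝓞 k ⧸ v.asIdeal) → ℝ) : ℝ :=
  ((Nat.card (𝓞 k ⧸ v.asIdeal) : ℝ) ^ m)⁻¹ *
    ∑ᶠ φ : {φ : R →+* 𝓞 k ⧸ v.asIdeal //
      φ.comp (algebraMap (𝓞 k) R) = Ideal.Quotient.mk v.asIdeal ∧ φ N ≠ 0 ∧ GoodAt G a φ},
      ((Nat.card (𝓞 k ⧸ v.asIdeal) : ℝ) + 1 - openPoints G a φ.1 - c φ.1)

/-- `Σ_T(b) = ∑_{v ∉ S, q_v ≤ T} b(v) log q_v`. -/
noncomputable def sumUpTo {k : Type} [Field k] [NumberField k] (S : Finset (HeightOneSpectrum (𝓞 k)))
    (b : HeightOneSpectrum (𝓞 k) → ℝ) (T : ℝ) : ℝ :=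
  ∑ᶠ v ∈ {v : HeightOneSpectrum (𝓞 k) | v ∉ S ∧ (Ideal.absNorm v.asIdeal : ℝ) ≤ T},
    b v * Real.log (Ideal.absNorm v.asIdeal : ℝ)

/-- All points `φ` of a dense open part of `Spec R` are good. -/
def GoodGenerically {R : Type} [CommRing R] (G a : R[X][X]) : Prop :=
  ∃ N₀ : R, N₀ ≠ 0 ∧ ∀ (F : Type) [Field F] (φ : R →+* F), φ N₀ ≠ 0 → GoodAt G a φ

/-- For every model `(R, G, a)`, all models `E z` of the residue fields of the points outside `U`, every
nonzero `N` in `R` and every finite set `S` of primes the sums `T⁻¹ ∑_{v ∉ S, q_v ≤ T} 𝔄_v log q_v` tend to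
`r`; and outside a proper closed subset of `Spec R` all points are good. -/
def AveragesTendTo (k : Type) [Field k] [NumberField k] {M K : Type} [Field M] [Field K] [Algebra M K]
    [Algebra k M] (A B : M[X][X]) (w : K) (L : Type)
    [Field L] [Algebra K L] [Algebra (AdjoinRoot (generic A B w)) L] (m : ℕ) (r : ℝ) : Prop :=
  ∀ (R : Type) [CommRing R] [IsDomain R] [Algebra.FiniteType ℤ R] [Algebra R K] [IsFractionRing R K]
    [Algebra (𝓞 k) R] (G a : R[X][X]), IsModel k A B w G a →
    GoodGenerically G a ∧
    ∀ (E : (z : Outside A B w L) → PointModel R z.1) (N : R), N ≠ 0 →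
      ∀ S : Finset (HeightOneSpectrum (𝓞 k)), Tendsto (fun T : ℝ => sumUpTo S
        (fun v => average G a N m v (outerPoints (fun z : Outside A B w L => z.1) E)) T / T) atTop (𝓝 r)

/-- **The Tauberian generalized Nagao conjecture for all curves over `K = M(w)` whose function field is
purely transcendental over `M`, for an arbitrary finitely generated field `M` of characteristic zero and
for every model.** -/
theorem result {k : Type} [Field k] [NumberField k] {M : Type} [Field M] [CharZero M] [Algebra k M]
    (hM : ∃ S : Finset M, Subfield.closure (S : Set M) = ⊤) {e : ℕ} (he : Algebra.trdeg ℚ M = e)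
    {K : Type} [Field K] [CharZero K] [Algebra M K] {w : K} (hw : Transcendental M w)
    (hK : IntermediateField.adjoin M {w} = ⊤)
    {l : ℕ} (hl : 0 < l) {A B : M[X][X]} (hA0 : A ≠ 0) (hA : A.natDegree < l) (hB : B.Monic)
    (hBl : B.natDegree = l) (hAB : IsRelPrime B A) (hirr : AbsIrr (generic A B w))
    {L : Type} [Field L] [Algebra K L] [Algebra (AdjoinRoot (generic A B w)) L]
    [IsFractionRing (AdjoinRoot (generic A B w)) L]
    (hL : ∀ c : K, algebraMap K L c = algebraMap (AdjoinRoot (generic A B w)) L (AdjoinRoot.of _ (C c))) :
    Algebra.trdeg ℚ K = (e + 1 : ℕ) ∧ IsRational A B w L ∧ MembersFinite A B ∧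
    -- the open curve `U`
    OpenCurve A B w (unitNumber A B) ∧
    -- the divisor class group of `C`
    Finite (Outside A B w L) ∧
    ∃ ρ : ℕ, picRank K L = ρ ∧ ρ + unitNumber A B = Nat.card (Outside A B w L) ∧
    -- the analytic side: the limit of the averages of the `𝔄_v`, for every model
    AveragesTendTo k A B w L (e + 1) (-((ρ : ℝ) - 1)) := by
  classical
  have hpen : Pool.Agent.Zk97.CB.Pen l A B := ⟨hl, hA0, hA, hB, hBl⟩
  have hg : Pool.Agent.Zk97.CB.GP l A B := ⟨hpen, hAB⟩
  have hD := Pool.Agent.Zk52.CB.t_D
  have hV := Pool.Agent.Zk78.CB.t_V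
  have hBz := Pool.Agent.Zk66.CB.t_B
  have hC := Pool.Agent.Zk64.CB.t_C
  have hE := Pool.Agent.Zk20.CBE.t_E
  have hPl := Pool.Agent.Zk86.CB.t_P
  have hXY := Pool.Agent.Zk52.CB.t_XY
  have hH2 := Pool.Agent.Zk93.CB.t_H2
  have hX := Pool.Agent.Zk85.CB.t_X
  have hK' : ∀ z : K, ∃ p q : M[X], aeval w q ≠ 0 ∧ z * aeval w q = aeval w p :=
    fun z => Pool.Agent.R410.NG.gen_line hK z hw
  have htr := Pool.Agent.R410.NG.trdeg_line he hw hK
  have hirr' : Pool.Agent.Zk97.CB.AbsIrr (Pool.Agent.Zk97.CB.ff w A B) := hirr
  have hff : Irreducible (Pool.Agent.Zk97.CB.ff w A B) := by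
    have := hirr' K (RingHom.id K)
    rwa [mapRingHom_id, Polynomial.map_id] at this
  have hfm := Pool.Agent.Zk97.CB.ff_monic hg w
  letI iL : Algebra (AdjoinRoot (Pool.Agent.Zk97.CB.ff w A B)) L :=
    (inferInstance : Algebra (AdjoinRoot (generic A B w)) L)
  haveI iF : IsFractionRing (AdjoinRoot (Pool.Agent.Zk97.CB.ff w A B)) L :=
    (inferInstance : IsFractionRing (AdjoinRoot (generic A B w)) L)
  -- bounds for the degrees
  obtain ⟨n₁, hn₁⟩ := Pool.Agent.Zk97.CB.exists_bound A
  obtain ⟨n₂, hn₂⟩ := Pool.Agent.Zk97.CB.exists_bound B
  set n := max n₁ n₂ with hn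
  have hAn : ∀ i, (A.coeff i).natDegree ≤ n := fun i => (hn₁ i).trans (le_max_left _ _)
  have hBn : ∀ i, (B.coeff i).natDegree ≤ n := fun i => (hn₂ i).trans (le_max_right _ _)
  obtain ⟨hfin, hnat⟩ := hg.natural (k := k) hAn hBn hD hV hBz hC hM he hw hK hirr'
  have c2 : unitNumber A B = Pool.Agent.Zk97.CB.om A +
      ∑ᶠ p : Pool.Agent.Zk97.CB.MPt M, (Pool.Agent.Zk97.CB.om (Pool.Agent.Zk97.CB.hm p.1 B A) - 1) := by
    rw [← hg.sum_eq, ← Pool.Agent.Zk97.CB.comps_eq hA0]
    rfl
  have hmem : ∀ p : M[X], p.Monic ∧ Irreducible p → members p B A ≠ 0 ∧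
      components (members p B A) = Pool.Agent.Zk97.CB.om (members p B A) := fun p hp => by
    have h1 : members p B A ≠ 0 := (Pool.Agent.Zk97.CB.hm_deg hg.pen hp.2.ne_zero).2
    exact ⟨h1, Pool.Agent.Zk97.CB.comps_eq h1⟩
  have hthA : Pool.Agent.Zk97.CB.th w A B A ≠ 0 := by
    intro h0
    exact hA0 (Pool.Agent.Zk97.CB.th_inj hpen hw hK' (by rw [h0, map_zero]))
  have hinj : Function.Injective (algebraMap (AdjoinRoot (generic A B w)) L) := IsFractionRing.injective _ L
  -- the places
  obtain ⟨hp1, hp2, -⟩ := hPl K L (generic A B w) hfm.1 (by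
    have := hfm.2
    show 0 < (Pool.Agent.Zk97.CB.ff w A B).natDegree
    omega) hff hL
  obtain ⟨hy1, hy2⟩ := hXY K L (generic A B w) hfm.1 (by
    have := hfm.2
    show 0 < (Pool.Agent.Zk97.CB.ff w A B).natDegree
    omega) hirr hL
  have hout := Pool.Agent.Zk97.CB.out_finite (K := K) hp1
    (algebraMap (AdjoinRoot (generic A B w)) L (AdjoinRoot.of _ X))
    (algebraMap (AdjoinRoot (generic A B w)) L (AdjoinRoot.root _))
    (algebraMap (AdjoinRoot (generic A B w)) L
      (AdjoinRoot.mk _ (A.map (mapRingHom (algebraMap M K)))))⁻¹
  have hZ : Finite (Outside A B w L) := hout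
  have hopen : ∀ (T : Type) [CommRing T] [Algebra (AdjoinRoot (generic A B w)) T]
      [IsLocalization.Away (AdjoinRoot.mk (generic A B w) (A.map (mapRingHom (algebraMap M K)))) T],
      IsDomain T ∧ IsPrincipalIdealRing T ∧
      unitRank ((algebraMap (AdjoinRoot (generic A B w)) T).comp ((AdjoinRoot.of _).comp C)) =
        (unitNumber A B : Cardinal) := by
    intro T _ iT hT
    letI iT' : Algebra (AdjoinRoot (Pool.Agent.Zk97.CB.ff w A B)) T := iT
    have hT' : IsLocalization.Away (Pool.Agent.Zk97.CB.th w A B A) T := hT
    have h1 := hE M K w A B l hg hw hK' hff hfin T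
    rw [← c2] at h1
    exact h1
  -- the divisor class group
  have hpic : picRank K L + (unitNumber A B : Cardinal) = (Nat.card (Outside A B w L) : Cardinal) := by
    let T := Localization.Away (AdjoinRoot.mk (generic A B w) (A.map (mapRingHom (algebraMap M K))))
    obtain ⟨hT1, hT2, hT3⟩ := hopen T
    have hu : IsUnit (algebraMap (AdjoinRoot (generic A B w)) L
        (AdjoinRoot.mk (generic A B w) (A.map (mapRingHom (algebraMap M K))))) :=
      isUnit_iff_ne_zero.2 ((map_ne_zero_iff _ hinj).2 hthA)
    let _ : Algebra T L := (IsLocalization.Away.lift (S := T)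
      (AdjoinRoot.mk (generic A B w) (A.map (mapRingHom (algebraMap M K)))) hu).toAlgebra
    have htow : IsScalarTower (AdjoinRoot (generic A B w)) T L := by
      refine IsScalarTower.of_algebraMap_eq fun a => ?_
      exact (IsLocalization.Away.lift_eq _ hu a).symm
    have hdom : IsDomain (AdjoinRoot (generic A B w)) := hinj.isDomain
    have hfr : IsFractionRing T L :=
      IsFractionRing.isFractionRing_of_isDomain_of_isLocalization
        (Submonoid.powers (AdjoinRoot.mk (generic A B w) (A.map (mapRingHom (algebraMap M K))))) T L
    letI iT' : Algebra (AdjoinRoot (Pool.Agent.Zk97.CB.ff w A B)) T :=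
      (inferInstance : Algebra (AdjoinRoot (generic A B w)) T)
    haveI htow' : IsScalarTower (AdjoinRoot (Pool.Agent.Zk97.CB.ff w A B)) T L := htow
    have hT' : IsLocalization.Away (Pool.Agent.Zk97.CB.th w A B A) T :=
      (inferInstance : IsLocalization.Away (AdjoinRoot.mk (generic A B w) (A.map (mapRingHom (algebraMap M K)))) T)
    have hiff := fun O : Pool.Agent.Zk97.CB.Place K L =>
      Pool.Agent.Zk97.CB.out_iff (M := M) (w := w) (A := A) (B := B) T hL hthA O
    have hset : {O : Pool.Agent.Zk97.CB.Place K L | ¬ ∀ t : T, algebraMap T L t ∈ O.1} =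
        {O : Pool.Agent.Zk97.CB.Place K L |
          ¬ (algebraMap (AdjoinRoot (generic A B w)) L (AdjoinRoot.of _ X) ∈ O.1 ∧
          algebraMap (AdjoinRoot (generic A B w)) L (AdjoinRoot.root _) ∈ O.1 ∧
          (algebraMap (AdjoinRoot (generic A B w)) L
            (AdjoinRoot.mk _ (A.map (mapRingHom (algebraMap M K)))))⁻¹ ∈ O.1)} := by
      ext O
      exact not_congr (hiff O)
    have h1 := hX K L T ((algebraMap (AdjoinRoot (generic A B w)) T).comp ((AdjoinRoot.of _).comp C))
      (fun c => by
        rw [hL, RingHom.comp_apply, ← IsScalarTower.algebraMap_apply]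
        rfl) hp1 hy1 (by
        rw [hset]
        exact hout) hy2
    rw [hset] at h1
    have h2 : Pool.Agent.Zk97.CB.uRank ((algebraMap (AdjoinRoot (generic A B w)) T).comp
        ((AdjoinRoot.of _).comp C)) = (unitNumber A B : Cardinal) := hT3
    rw [h2] at h1
    exact h1
  obtain ⟨ρ, hρ⟩ : ∃ ρ : ℕ, picRank K L = ρ := by
    have h1 : picRank K L ≤ (Nat.card (Outside A B w L) : Cardinal) := by
      rw [← hpic]
      exact le_self_add
    exact Cardinal.lt_aleph0.1 (h1.trans_lt (Cardinal.natCast_lt_aleph0))
  have hρ' : ρ + unitNumber A B = Nat.card (Outside A B w L) := by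
    rw [hρ] at hpic
    exact_mod_cast hpic
  refine ⟨htr, Pool.Agent.Zk97.CB.theta hg hw hK' hL, ⟨?_, ?_, ?_⟩, hopen, hZ, ρ, hρ, hρ', ?_⟩
  · intro P hP0
    have f2 : (Ideal.span {P}).minimalPrimes.Finite :=
      Ideal.finite_minimalPrimes_of_isNoetherianRing _ _
    rw [← Pool.Agent.Zk97.CB.comp_eq hP0] at f2
    exact f2
  · intro p hp
    refine ⟨(hmem p hp).1, ?_⟩
    rw [(hmem p hp).2]
    exact hg.om_pos ⟨p, hp⟩
  · refine (hfin.image (fun p => p.1)).subset ?_
    rintro p ⟨hp, h1⟩
    refine ⟨⟨p, hp⟩, ?_, rfl⟩
    rw [(hmem p hp).2] at h1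
    exact h1
  · intro R _ _ _ _ _ _ G a hmodel
    obtain ⟨hk, hG, ha⟩ := hmodel
    have hRinj : Function.Injective (algebraMap R K) := IsFractionRing.injective R K
    have hRinj1 : Function.Injective (mapRingHom (algebraMap R K)) := Polynomial.map_injective _ hRinj
    have hMinj1 : Function.Injective (mapRingHom (algebraMap M K)) :=
      Polynomial.map_injective _ (algebraMap M K).injective
    have hGm : G.Monic := Polynomial.monic_of_injective hRinj1 (by rw [hG]; exact hfm.1)
    have hGl : G.natDegree = l := by
      rw [← natDegree_map_eq_of_injective hRinj1, hG]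
      exact hfm.2
    have hal : a.natDegree < l := by
      rw [← natDegree_map_eq_of_injective hRinj1, ha, natDegree_map_eq_of_injective hMinj1]
      exact hA
    have ha0 : a ≠ 0 := by
      rintro rfl
      rw [Polynomial.map_zero] at ha
      exact hA0 ((Polynomial.map_eq_zero_iff hMinj1).1 ha.symm)
    have hGn : ∀ i, (G.coeff i).natDegree ≤ n := Pool.Agent.Zk97.CB.deg_of_map hRinj (by
      rw [hG]
      exact Pool.Agent.Zk97.CB.ff_deg w hAn hBn)
    have han : ∀ i, (a.coeff i).natDegree ≤ n := Pool.Agent.Zk97.CB.deg_of_map hRinj (by
      rw [ha]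
      intro i
      rw [coeff_map, coe_mapRingHom]
      exact natDegree_map_le.trans (hAn i))
    have hGirr : Pool.Agent.Zk97.CB.AbsIrr (G.map (mapRingHom (algebraMap R K))) := by
      rw [hG]
      exact hirr
    refine ⟨Pool.Agent.Zk97.CB.exists_N0 hl hGm hGl ha0 hGirr, ?_⟩
    intro E N hN S
    have hchar : ∀ z : Outside A B w L, CharZero (Residue z.1) := fun z =>
      charZero_of_injective_ringHom (constants z.1).injective
    let _ : Fintype (Outside A B w L) := Fintype.ofFinite _
    have h1 := Pool.Agent.Zk97.CB.final_avg (k := k) (m := e + 1) (l := l) (n := n) hH2 htr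
      ((algebraMap M K).comp (algebraMap k M)) hk hl hGm hGl hGn hal han ha0 hGirr
      (fun z : Outside A B w L => Residue z.1) (fun z => constants z.1)
      (fun z x => hp2 z.1.1 z.1.2.1 z.1.2.2 x) (fun z => (E z).E) (fun z => (E z).comp) hN S
      (hnat R hk G a hG ha N hN S)
    rw [← c2] at h1
    have h2 : ((unitNumber A B : ℕ) : ℝ) + 1 - (Fintype.card (Outside A B w L) : ℝ) = -((ρ : ℝ) - 1) := by
      rw [← Nat.card_eq_fintype_card, ← hρ']
      push_cast
      ring
    rw [h2] at h1
    exact h1

end Pool.Agent.Results.MP_1a0ddd_nt.RationalTotalSpaces
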